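import Pool.Agent.W583.MD.EN
import Pool.Agent.Q85.CC.Defs

/-!
Project CC: the local energy identity with a compactly supported function of the space variable.
-/

set_option autoImplicit false

open MeasureTheory Set Metric Filter Topology
open scoped ContDiff
open H459R3.NS Pool.Agent.W268.NS Pool.Agent.Q67.VD Pool.Agent.W583.MD

namespace Pool.Agent.Q225.CC

open Pool.Agent.Q85.CC

theorem hcsR {f : V → ℝ} {R : ℝ} (h : ∀ z ∉ closedBall (0 : V) R, f z = 0) :
    HasCompactSupport f :=
  HasCompactSupport.of_support_subset_isCompact (isCompact_closedBall (0 : V) R) fun z hz => by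
    by_contra hcon
    exact hz (h z hcon)

section

variable {α β : ℝ}

theorem dt_zeroR {F : ℝ → V → ℝ} {R : ℝ}
    (hs : ∀ t ∈ Ioo α β, ∀ z ∉ closedBall (0 : V) R, F t z = 0) {t : ℝ}
    (ht : t ∈ Ioo α β) {z : V} (hz : z ∉ closedBall (0 : V) R) :
    deriv (fun s => F s z) t = 0 := by
  have h1 : (fun s => F s z) =ᶠ[𝓝 t] fun _ => 0 := by
    filter_upwards [Ioo_mem_nhds ht.1 ht.2] with s hs'
    exact hs s hs' z hz
  rw [h1.deriv_eq]
  exact deriv_const t 0

theorem hd_intR {F : ℝ → V → ℝ} {R : ℝ}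
    (hF : ContDiffOn ℝ ∞ (fun z : ℝ × V => F z.1 z.2) (Ioo α β ×ˢ univ))
    (hs : ∀ t ∈ Ioo α β, ∀ z ∉ closedBall (0 : V) R, F t z = 0) {t : ℝ} (ht : t ∈ Ioo α β) :
    HasDerivAt (fun s => ∫ x, F s x) (∫ x, deriv (fun s => F s x) t) t := by
  obtain ⟨a, ha1, ha2⟩ := exists_between ht.1
  obtain ⟨b, hb1, hb2⟩ := exists_between ht.2
  have hK : IsCompact (Icc a b ×ˢ closedBall (0 : V) R) :=
    isCompact_Icc.prod (isCompact_closedBall 0 R)
  have hsub' : ∀ s ∈ Icc a b, s ∈ Ioo α β := fun s hs => ⟨ha1.trans_le hs.1, hs.2.trans_lt hb2⟩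
  have hsub : Icc a b ×ˢ closedBall (0 : V) R ⊆ Ioo α β ×ˢ (univ : Set V) :=
    prod_mono hsub' (subset_univ _)
  obtain ⟨C, hC⟩ := hK.exists_bound_of_continuousOn ((cont_dt hF).mono hsub)
  have hnh : Icc a b ∈ 𝓝 t := Icc_mem_nhds ha2 hb1
  have key := (hasDerivAt_integral_of_dominated_loc_of_deriv_le (s := Icc a b)
    (F := fun s x => F s x) (F' := fun s x => deriv (fun s => F s x) s)
    (bound := (closedBall (0 : V) R).indicator fun _ => C) (μ := volume) hnh ?_ ?_ ?_ ?_ ?_ ?_).2
  · exact key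
  · filter_upwards [Ioo_mem_nhds ht.1 ht.2] with s hs
    exact (slice hF hs).continuous.aestronglyMeasurable
  · exact int_cs (slice hF ht).continuous (hcsR (hs t ht))
  · exact (cont_dt_slice hF ht).aestronglyMeasurable
  · refine Filter.Eventually.of_forall fun x s hs' => ?_
    by_cases hx : x ∈ closedBall (0 : V) R
    · rw [indicator_of_mem hx, (hd_slice hF (hsub' s hs') x).deriv]
      exact hC (s, x) ⟨hs', hx⟩
    · rw [indicator_of_notMem hx]
      change ‖deriv (fun s => F s x) s‖ ≤ 0
      rw [dt_zeroR hs (hsub' s hs') hx, norm_zero]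
  · exact (integrable_indicator_iff measurableSet_closedBall).2
      (integrableOn_const (measure_closedBall_lt_top.ne))
  · refine Filter.Eventually.of_forall fun x s hs' => ?_
    have h := hd_slice hF (hsub' s hs') x
    rw [← h.deriv] at h
    exact h

end

/-- The local energy identity. -/
theorem stmLE : StmLE := by
  intro T u p hI φ hφ hc t ht
  obtain ⟨R, hR⟩ : ∃ R : ℝ, tsupport φ ⊆ closedBall (0 : V) R :=
    hc.isCompact.isBounded.subset_closedBall 0
  have hz0 : ∀ z ∉ closedBall (0 : V) R, φ z = 0 := fun z hz =>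
    image_eq_zero_of_notMem_tsupport fun h => hz (hR h)
  have ht0 : t ∈ Ico 0 T := ⟨ht.1.le, ht.2⟩
  have hsub : Ioo 0 T ×ˢ (univ : Set V) ⊆ Ico 0 T ×ˢ univ :=
    prod_mono Ioo_subset_Ico_self subset_rfl
  have hv : ContDiffOn ℝ ∞ (fun z : ℝ × V => u z.1 z.2) (Ioo 0 T ×ˢ univ) :=
    hI.smooth_u.mono hsub
  have hvi : ∀ i, ContDiffOn ℝ ∞ (fun z : ℝ × V => u z.1 z.2 i) (Ioo 0 T ×ˢ univ) :=
    fun i => contDiffOn_pi.1 hv i
  have hq : ContDiff ℝ ∞ (p t) := slice (hI.smooth_p.mono hsub) ht
  have hw : ∀ i, ContDiff ℝ ∞ (fun y => u t y i) := fun i =>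
    slice (F := fun t y => u t y i) (hvi i) ht
  have hn : Continuous (W221.NS.nsq (u t)) := by
    unfold W221.NS.nsq
    exact continuous_finsetSum _ fun i _ => (hw i).continuous.pow 2
  have hg : Continuous (W221.NS.gsq (u t)) := by
    unfold W221.NS.gsq
    exact continuous_finsetSum _ fun i _ => continuous_finsetSum _ fun j _ =>
      (sm_pd (hw i) j).continuous.pow 2
  have hlap : Continuous (lap φ) := by
    unfold lap
    exact continuous_finsetSum _ fun j _ => (sm_pd (sm_pd hφ j) j).continuous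
  have hlc : HasCompactSupport (lap φ) := by
    have h0 := cs_pd (cs_pd hc 0) 0
    have h1 := cs_pd (cs_pd hc 1) 1
    have h2 := cs_pd (cs_pd hc 2) 2
    have e : lap φ = pd 0 (pd 0 φ) + pd 1 (pd 1 φ) + pd 2 (pd 2 φ) := by
      funext x
      unfold lap
      rw [Fin.sum_univ_three]
      rfl
    rw [e]
    exact (h0.add h1).add h2
  have hadv : Continuous (W221.NS.adv (u t) φ) := by
    unfold W221.NS.adv
    exact continuous_finsetSum _ fun j _ => (hw j).continuous.mul (sm_pd hφ j).continuous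
  have hac : HasCompactSupport (W221.NS.adv (u t) φ) := by
    have h0 := (cs_pd hc 0).mul_left (f := fun x => u t x 0)
    have h1 := (cs_pd hc 1).mul_left (f := fun x => u t x 1)
    have h2 := (cs_pd hc 2).mul_left (f := fun x => u t x 2)
    have e : W221.NS.adv (u t) φ = (fun x => u t x 0) * pd 0 φ + (fun x => u t x 1) * pd 1 φ +
        (fun x => u t x 2) * pd 2 φ := by
      funext x
      unfold W221.NS.adv
      rw [Fin.sum_univ_three]
      rfl
    rw [e]
    exact (h0.add h1).add h2
  -- the derivative in time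
  have hΦ : ContDiffOn ℝ ∞ (fun z : ℝ × V => φ z.2) (Ioo 0 T ×ˢ univ) :=
    (hφ.comp contDiff_snd).contDiffOn
  have hF : ContDiffOn ℝ ∞ (fun z : ℝ × V => W221.NS.nsq (u z.1) z.2 * φ z.2)
      (Ioo 0 T ×ˢ univ) := by
    unfold W221.NS.nsq
    exact (ContDiffOn.sum fun i _ => (hvi i).pow 2).mul hΦ
  have h1 := hd_intR (F := fun s z => W221.NS.nsq (u s) z * φ z) (R := R) hF
    (fun s _ z hz => by rw [hz0 z hz, mul_zero]) ht
  refine h1.congr_deriv ?_
  -- the integrand
  have hD : ∀ x, deriv (fun s => W221.NS.nsq (u s) x * φ x) t =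
      (∑ i, 2 * u t x i * (∑ j, pd j (pd j (fun y => u t y i)) x - pd i (p t) x -
        ∑ j, u t x j * pd j (fun y => u t y i) x)) * φ x := by
    intro x
    have d1 : ∀ i, HasDerivAt (fun s => u s x i) (∑ j, pd j (pd j (fun y => u t y i)) x -
        pd i (p t) x - ∑ j, u t x j * pd j (fun y => u t y i) x) t := by
      intro i
      have d := hd_slice (F := fun t y => u t y i) (hvi i) ht x
      rw [← d.deriv] at d
      have m := hI.momentum t ht x i
      have e : ∑ j, pd j (pd j (fun y => u t y i)) x - pd i (p t) x -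
          ∑ j, u t x j * pd j (fun y => u t y i) x = deriv (fun s => u s x i) t := by
        linarith
      rw [e]
      exact d
    have d3 : HasDerivAt (fun s => W221.NS.nsq (u s) x) (∑ i, 2 * u t x i *
        (∑ j, pd j (pd j (fun y => u t y i)) x - pd i (p t) x -
        ∑ j, u t x j * pd j (fun y => u t y i) x)) t := by
      unfold W221.NS.nsq
      refine HasDerivAt.fun_sum fun i _ => ?_
      refine ((d1 i).pow 2).congr_deriv ?_
      norm_num
    exact (d3.mul_const (φ x)).deriv
  have hZ := Z_main (w := fun i y => u t y i) hw hq hφ hc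
  have hZ' : Z (fun x => deriv (fun s => W221.NS.nsq (u s) x * φ x) t -
      (-2 * (W221.NS.gsq (u t) x * φ x) + W221.NS.nsq (u t) x * lap φ x +
        2 * ((p t x + W221.NS.nsq (u t) x / 2) * W221.NS.adv (u t) φ x))) := by
    have e : ∀ x, deriv (fun s => W221.NS.nsq (u s) x * φ x) t -
        (-2 * (W221.NS.gsq (u t) x * φ x) + W221.NS.nsq (u t) x * lap φ x +
          2 * ((p t x + W221.NS.nsq (u t) x / 2) * W221.NS.adv (u t) φ x)) = _ := fun x => by
      refine Eq.trans ?_ (point (w := fun i y => u t y i) hw hq hφ x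
        (hI.divfree t ht0 x)).symm
      rw [hD x]
      simp only [W221.NS.nsq, W221.NS.gsq, W221.NS.adv, lap]
      ring
    have e' := funext e
    rw [e']
    exact hZ
  have i1 : Integrable fun x => W221.NS.gsq (u t) x * φ x :=
    int_cs (hg.mul hφ.continuous) hc.mul_left
  have i2 : Integrable fun x => W221.NS.nsq (u t) x * lap φ x :=
    int_cs (hn.mul hlap) hlc.mul_left
  have i3 : Integrable fun x => (p t x + W221.NS.nsq (u t) x / 2) * W221.NS.adv (u t) φ x :=
    int_cs ((hq.continuous.add (hn.div_const 2)).mul hadv) hac.mul_left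
  have i4 : Integrable fun x => -2 * (W221.NS.gsq (u t) x * φ x) +
      W221.NS.nsq (u t) x * lap φ x := (i1.const_mul (-2)).add i2
  have i5 : Integrable fun x => -2 * (W221.NS.gsq (u t) x * φ x) +
      W221.NS.nsq (u t) x * lap φ x +
      2 * ((p t x + W221.NS.nsq (u t) x / 2) * W221.NS.adv (u t) φ x) :=
    i4.add (i3.const_mul 2)
  have h2 := integral_add hZ'.1 i5
  simp only [sub_add_cancel] at h2
  rw [hZ'.2, zero_add, integral_add i4 (i3.const_mul 2), integral_add (i1.const_mul (-2)) i2,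
    integral_const_mul, integral_const_mul] at h2
  exact h2

end Pool.Agent.Q225.CC
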