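import Pool.Agent.Q85.CC.Defs
import Pool.Agent.Q199.VD.Flux
import Pool.Agent.H459R3.NS.High
import Pool.Agent.H459R3.NS.Sol

/-!
Project CC: the equation of the Bernoulli pressure and its size.
-/

set_option autoImplicit false

open MeasureTheory Set Metric Filter Topology
open scoped ContDiff
open H459R3.NS Pool.Agent.W268.NS Pool.Agent.Q67.VD Pool.Agent.Q199.VD

namespace Pool.Agent.Q225.CC

open Pool.Agent.Q85.CC

/-! ### Fourier estimate -/

theorem fr_lap_le {f : V → ℝ} (hf : SP f) (k : K3) :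
    (N k : ℝ) ^ 2 * ‖fr f k‖ ≤ ‖fr (lap f) k‖ := by
  have e1 : fr (lap f) k = -(((2 * Real.pi) ^ 2 * ∑ j, (k j : ℝ) ^ 2 : ℝ) : ℂ) * fr f k := by
    unfold lap
    rw [fr_sum fun j _ => (hf.pd j).pd j]
    push_cast
    rw [Finset.mul_sum, ← Finset.sum_neg_distrib, Finset.sum_mul]
    refine Finset.sum_congr rfl fun j _ => ?_
    rw [fr_pd (hf.pd j), fr_pd hf, D, D]
    have := Complex.I_sq
    linear_combination ((2 * Real.pi : ℂ) ^ 2 * (k j : ℂ) ^ 2 * fr f k) * this
  rw [e1, norm_mul, norm_neg, Complex.norm_real, Real.norm_eq_abs,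
    abs_of_nonneg (by positivity)]
  refine mul_le_mul_of_nonneg_right ?_ (norm_nonneg _)
  have a1 := N_sq_le k
  have a2 : (1 : ℝ) ≤ (2 * Real.pi) ^ 2 := by nlinarith [Real.pi_gt_three]
  have a3 : (0 : ℝ) ≤ ∑ j, (k j : ℝ) ^ 2 := by positivity
  nlinarith

theorem fr_le_int {f : V → ℝ} (k : K3) : ‖fr f k‖ ≤ ∫ x in cube, |f x| := by
  unfold fr fc
  refine (norm_integral_le_integral_norm _).trans (le_of_eq ?_)
  congr 1
  funext x
  rw [norm_mul, norm_ee, one_mul, Complex.norm_real, Real.norm_eq_abs]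

theorem int_sq_le_lap {f : V → ℝ} (hf : SP f) (h0 : ∫ x in cube, f x = 0) :
    ∫ x in cube, f x ^ 2 ≤ C4 * (∫ x in cube, |lap f x|) ^ 2 := by
  have hr := rap_fr hf
  rw [← n2_fr hf, n2_sq]
  obtain ⟨L, hL⟩ : ∃ L : ℝ, L = ∫ x in cube, |lap f x| := ⟨_, rfl⟩
  have hL0 : 0 ≤ L := by rw [hL]; exact integral_nonneg fun x => abs_nonneg _
  rw [← hL]
  have hbd : ∀ k : K3, ‖fr f k‖ ^ 2 ≤ (if k = 0 then (0 : ℝ) else 1 / (N k : ℝ) ^ 4) * L ^ 2 := by
    intro k
    by_cases hk : k = 0
    · rw [if_pos hk, hk, zero_mul]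
      have e : fr f 0 = 0 := by
        unfold fr fc
        have e1 : ∀ x : V, ee (-0) x * ((f x : ℝ) : ℂ) = ((f x : ℝ) : ℂ) := fun x => by
          rw [neg_zero, ee_zero, one_mul]
        simp_rw [e1]
        rw [integral_complex_ofReal, h0, Complex.ofReal_zero]
      rw [e, norm_zero]
      norm_num
    · rw [if_neg hk]
      have hN : 1 ≤ N k := Nat.one_le_iff_ne_zero.2 fun h => hk (N_eq_zero.1 h)
      have hN' : (0 : ℝ) < N k := by exact_mod_cast hN
      have h1 : (N k : ℝ) ^ 2 * ‖fr f k‖ ≤ L := by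
        rw [hL]
        exact (fr_lap_le hf k).trans (fr_le_int k)
      have h2 : ((N k : ℝ) ^ 2 * ‖fr f k‖) ^ 2 ≤ L ^ 2 :=
        pow_le_pow_left₀ (by positivity) h1 2
      rw [div_mul_eq_mul_div, one_mul, le_div_iff₀ (by positivity)]
      calc ‖fr f k‖ ^ 2 * (N k : ℝ) ^ 4 = ((N k : ℝ) ^ 2 * ‖fr f k‖) ^ 2 := by ring
        _ ≤ L ^ 2 := h2
  calc ∑' k, ‖fr f k‖ ^ 2 ≤ ∑' k : K3, (if k = 0 then (0 : ℝ) else 1 / (N k : ℝ) ^ 4) * L ^ 2 :=
        (summable_sq hr.summable).tsum_le_tsum hbd (summable_N4.mul_right _)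
    _ = C4 * L ^ 2 := by rw [tsum_mul_right]; rfl

theorem sp_sub_const {f : V → ℝ} (hf : SP f) (m : ℝ) : SP (fun x => f x - m) :=
  ⟨hf.smooth.sub contDiff_const, fun i x => by simp only [hf.per i x]⟩

theorem pd_sub_const (f : V → ℝ) (m : ℝ) (j : Fin 3) : pd j (fun x => f x - m) = pd j f := by
  funext x
  unfold pd
  rw [fderiv_sub_const]

theorem int_mean_le {f : V → ℝ} (hf : SP f) :
    ∫ x in cube, |f x - ∫ y in cube, f y| ≤ √C4 * ∫ x in cube, |lap f x| := by
  obtain ⟨m, hm⟩ : ∃ m : ℝ, m = ∫ y in cube, f y := ⟨_, rfl⟩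
  rw [← hm]
  have hg := sp_sub_const hf m
  have := cube_finite
  have h0 : ∫ x in cube, (f x - m) = 0 := by
    rw [integral_sub hf.int (integrableOn_cube continuous_const), ← hm, setIntegral_const]
    have : volume.real cube = 1 := by rw [Measure.real, volume_cube]; rfl
    rw [this, one_smul, sub_self]
  have h1 := int_sq_le_lap hg h0
  have e1 : lap (fun x => f x - m) = lap f := by
    funext x
    unfold lap
    simp only [pd_sub_const]
  rw [e1] at h1
  have h2 := abs_int_mul_le (f := fun x => |f x - m|) (g := fun _ => (1 : ℝ)) hg.cont.abs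
    continuous_const
  simp only [mul_one] at h2
  have n1 : nrm (fun _ => (1 : ℝ)) = 1 := by
    unfold nrm
    have : volume.real cube = 1 := by rw [Measure.real, volume_cube]; rfl
    rw [setIntegral_const, this]
    norm_num
  have n2' : nrm (fun x => |f x - m|) ≤ √C4 * ∫ x in cube, |lap f x| := by
    unfold nrm
    have hL0 : 0 ≤ ∫ x in cube, |lap f x| := integral_nonneg fun x => abs_nonneg _
    rw [← Real.sqrt_sq hL0, ← Real.sqrt_mul C4_nonneg]
    refine Real.sqrt_le_sqrt ?_
    simp only [sq_abs]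
    exact h1
  rw [n1, mul_one] at h2
  exact (le_abs_self _).trans (h2.trans n2')

/-! ### The equation -/

section

variable {T : ℝ} {u : ℝ → V → V} {p : ℝ → V → ℝ}

theorem sp_sub {f g : V → ℝ} (hf : SP f) (hg : SP g) : SP (fun x => f x - g x) :=
  ⟨hf.smooth.sub hg.smooth, fun i x => by simp only [hf.per i x, hg.per i x]⟩

/-- divergence of the Laplacian -/
theorem div_lap {v : Fin 3 → V → ℝ} (hv : ∀ i, SP (v i)) (hdiv : ∀ x, ∑ i, pd i (v i) x = 0)
    (x : V) : ∑ i, pd i (lap (v i)) x = 0 := by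
  have h1 : ∀ i, pd i (lap (v i)) x = ∑ j, pd j (pd j (pd i (v i))) x := by
    intro i
    unfold lap
    rw [pd_sum fun j _ => ((hv i).pd j).pd j]
    refine Finset.sum_congr rfl fun j _ => ?_
    rw [pd_comm ((hv i).pd j) i j, pd_comm (hv i) i j]
  simp_rw [h1]
  rw [Finset.sum_comm]
  refine Finset.sum_eq_zero fun j _ => ?_
  have h2 : (fun y => ∑ i, pd i (v i) y) = fun _ => (0 : ℝ) := funext hdiv
  have h3 : ∀ y, pd j (fun y => ∑ i, pd i (v i) y) y = ∑ i, pd j (pd i (v i)) y := fun y =>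
    pd_sum (fun i _ => (hv i).pd i) j y
  have h4 : (fun y => ∑ i, pd j (pd i (v i)) y) = fun _ => (0 : ℝ) := by
    funext y
    rw [← h3 y, h2]
    unfold pd
    simp
  have h5 : pd j (fun y => ∑ i, pd j (pd i (v i)) y) x = ∑ i, pd j (pd j (pd i (v i))) x :=
    pd_sum (fun i _ => ((hv i).pd i).pd j) j x
  rw [← h5, h4]
  unfold pd
  simp

/-- divergence of the time derivative -/
theorem div_dt (h : IsSol 1 T u p) {t : ℝ} (ht : t ∈ Ioo 0 T) (x : V) :
    ∑ i, pd i (dt (fun s y => u s y i) t) x = 0 := by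
  have h1 : ∀ i, pd i (dt (fun s y => u s y i) t) x
      = dt (fun s => pd i (fun y => u s y i)) t x := fun i =>
    (dt_pd (f := fun s y => u s y i) (h.smooth_c i) ht i x).symm
  simp_rw [h1]
  have h2 : ∀ i, HasDerivAt (fun s => pd i (fun y => u s y i) x)
      (dt (fun s => pd i (fun y => u s y i)) t x) t := by
    intro i
    have hG : ContDiffOn ℝ ∞ (fun z : ℝ × V => pd i (fun y => u z.1 y i) z.2)
        (Ico 0 T ×ˢ univ) := contDiffOn_pd (f := fun s y => u s y i) (h.smooth_c i) i
    have hG1 : ContDiffOn ℝ 1 (fun z : ℝ × V => pd i (fun y => u z.1 y i) z.2)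
        (Ioo 0 T ×ˢ univ) :=
      mono_Ioo (f := fun s x => pd i (fun y => u s y i) x) hG (by norm_cast)
    have h3 := hasDerivAt_slice (F := fun s x => pd i (fun y => u s y i) x) hG1 ht x
    rw [← h3.deriv] at h3
    exact h3
  have h3 : HasDerivAt (fun s => ∑ i, pd i (fun y => u s y i) x)
      (∑ i, dt (fun s => pd i (fun y => u s y i)) t x) t := HasDerivAt.fun_sum fun i _ => h2 i
  rw [← h3.deriv]
  have h4 : (fun s => ∑ i, pd i (fun y => u s y i) x) =ᶠ[𝓝 t] fun _ => 0 := by
    filter_upwards [Ioo_mem_nhds ht.1 ht.2] with s hs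
    exact h.divfree s ⟨hs.1.le, hs.2⟩ x
  rw [h4.deriv_eq]
  exact deriv_const t 0

/-- The Laplacian of the pressure. -/
theorem lap_press (h : IsSol 1 T u p) {t : ℝ} (ht : t ∈ Ioo 0 T) (x : V) :
    lap (p t) x = -∑ i, pd i (conv (fun i y => u t y i) i) x := by
  have hI : t ∈ Ico 0 T := ⟨ht.1.le, ht.2⟩
  have hsp : ∀ i, SP (fun y => u t y i) := fun i => h.sp hI i
  have e1 : ∀ i, pd i (p t) = fun y => (lap (fun y => u t y i) y - dt (fun s y => u s y i) t y)
      - conv (fun i y => u t y i) i y := by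
    intro i
    funext y
    have := h.dt_eq ht i y
    rw [this]
    ring
  have e2 : ∀ i, pd i (pd i (p t)) x = pd i (lap (fun y => u t y i)) x
      - pd i (dt (fun s y => u s y i) t) x - pd i (conv (fun i y => u t y i) i) x := by
    intro i
    rw [e1 i, pd_sub' (sp_sub (hsp i).lap (h.sp_dt ht i))
      (sp_conv (v := fun i y => u t y i) hsp i), pd_sub' (hsp i).lap (h.sp_dt ht i)]
  unfold lap
  rw [Finset.sum_congr rfl fun i _ => e2 i, Finset.sum_sub_distrib, Finset.sum_sub_distrib,
    div_lap (v := fun i y => u t y i) hsp (h.divfree t hI), div_dt h ht]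
  ring

/-- The divergence of the convective term. -/
theorem div_conv {v : Fin 3 → V → ℝ} (hv : ∀ i, SP (v i)) (hdiv : ∀ x, ∑ i, pd i (v i) x = 0)
    (x : V) : ∑ i, pd i (conv v i) x = ∑ i, ∑ j, pd i (v j) x * pd j (v i) x := by
  have h1 : ∀ i, pd i (conv v i) x
      = ∑ j, (v j x * pd j (pd i (v i)) x + pd i (v j) x * pd j (v i) x) := by
    intro i
    unfold conv
    rw [pd_sum fun j _ => (hv j).mul ((hv i).pd j)]
    refine Finset.sum_congr rfl fun j _ => ?_
    rw [pd_mul (hv j) ((hv i).pd j), pd_comm (hv i) i j]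
  simp_rw [h1, Finset.sum_add_distrib]
  have h2 : ∑ i, ∑ j, v j x * pd j (pd i (v i)) x = 0 := by
    rw [Finset.sum_comm]
    refine Finset.sum_eq_zero fun j _ => ?_
    rw [← Finset.mul_sum]
    have h3 : pd j (fun y => ∑ i, pd i (v i) y) x = ∑ i, pd j (pd i (v i)) x :=
      pd_sum (fun i _ => (hv i).pd i) j x
    have h4 : (fun y => ∑ i, pd i (v i) y) = fun _ => (0 : ℝ) := funext hdiv
    rw [← h3, h4]
    unfold pd
    simp
  rw [h2, zero_add]

theorem abs_lap_press (h : IsSol 1 T u p) {t : ℝ} (ht : t ∈ Ioo 0 T) (x : V) :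
    |lap (p t) x| ≤ ∑ i, ∑ j, pd j (fun y => u t y i) x ^ 2 := by
  have hI : t ∈ Ico 0 T := ⟨ht.1.le, ht.2⟩
  have hsp : ∀ i, SP (fun y => u t y i) := fun i => h.sp hI i
  rw [lap_press h ht, abs_neg, div_conv (v := fun i y => u t y i) hsp (h.divfree t hI)]
  rw [abs_le]
  simp only [Fin.sum_univ_three]
  obtain ⟨a, ha⟩ : ∃ a : Fin 3 → Fin 3 → ℝ, a = fun i j => pd i (fun y => u t y j) x := ⟨_, rfl⟩
  have e : ∀ i j, pd i (fun y => u t y j) x = a i j := fun i j => by rw [ha]
  simp only [e]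
  constructor
  · nlinarith [sq_nonneg (a 0 1 + a 1 0), sq_nonneg (a 0 2 + a 2 0), sq_nonneg (a 1 2 + a 2 1),
      sq_nonneg (a 0 0), sq_nonneg (a 1 1), sq_nonneg (a 2 2)]
  · nlinarith [sq_nonneg (a 0 1 - a 1 0), sq_nonneg (a 0 2 - a 2 0), sq_nonneg (a 1 2 - a 2 1)]

end

theorem cross_eq (v : V → V) (hv : ∀ i, SP (fun y => v y i)) (i : Fin 3) (y : V) :
    crossProduct (v y) (vort v y) i = pd i (fun z => W221.NS.nsq v z / 2) y
      - conv (fun i y => v y i) i y := by
  have e1 : pd i (fun z => W221.NS.nsq v z / 2) y = ∑ j, v y j * pd i (fun z => v z j) y := by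
    have e2 : (fun z => W221.NS.nsq v z / 2) = fun z => ∑ j, (v z j / 2) * v z j := by
      funext z
      unfold W221.NS.nsq
      rw [Finset.sum_div]
      exact Finset.sum_congr rfl fun j _ => by ring
    have hs : ∀ j, SP (fun z => v z j / 2) := fun j =>
      ⟨(hv j).smooth.div_const 2, fun i x => by simp only [(hv j).per i x]⟩
    rw [e2, pd_sum fun j _ => (hs j).mul (hv j)]
    refine Finset.sum_congr rfl fun j _ => ?_
    rw [pd_mul (hs j) (hv j)]
    have e3 : pd i (fun z => v z j / 2) y = pd i (fun z => v z j) y / 2 := by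
      unfold pd
      have h1 := ((hv j).diff y).hasFDerivAt.mul_const (2⁻¹ : ℝ)
      have h2 : (fun z => v z j / 2) = fun z => v z j * 2⁻¹ := by
        funext z; rw [div_eq_mul_inv]
      rw [h2, h1.fderiv]
      simp only [smul_apply, smul_eq_mul]
      ring
    rw [e3]
    ring
  rw [e1]
  unfold conv vort gradM
  simp only [Fin.sum_univ_three, crossProduct, LinearMap.mk₂_apply]
  fin_cases i
  · simp
    ring
  · simp
    ring
  · simp
    ring

/-- The equation of the Bernoulli pressure and its size. -/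
theorem stmBern : StmBern := by
  refine ⟨√C4 + 1, by positivity, ?_⟩
  intro T u p h t ht
  have hI : t ∈ Ico 0 T := ⟨ht.1.le, ht.2⟩
  have hsp : ∀ i, SP (fun y => u t y i) := fun i => h.sp hI i
  have hdiv := h.divfree t hI
  have hcon : ∀ i, SP (conv (fun i y => u t y i) i) := fun i =>
    sp_conv (v := fun i y => u t y i) hsp i
  have hn : SP (fun z => W221.NS.nsq (u t) z / 2) := by
    unfold W221.NS.nsq
    have h1 : SP (fun z => ∑ j, u t z j ^ 2) := by
      refine SP.sum fun j _ => ?_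
      have := (hsp j).mul (hsp j)
      simpa only [sq] using this
    exact ⟨h1.smooth.div_const 2, fun i x => congrArg (fun r : ℝ => r / 2) (h1.per i x)⟩
  have hq : SP (fun y => p t y + W221.NS.nsq (u t) y / 2) := (h.sp_p hI).add hn
  have ecr : ∀ i, (fun y => crossProduct (u t y) (vort (u t) y) i)
      = fun y => pd i (fun z => W221.NS.nsq (u t) z / 2) y - conv (fun i y => u t y i) i y :=
    fun i => funext fun y => cross_eq (u t) hsp i y
  have hcr : ∀ i, SP (fun y => crossProduct (u t y) (vort (u t) y) i) := by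
    intro i
    rw [ecr i]
    exact sp_sub (hn.pd i) (hcon i)
  refine ⟨hq, hcr, ?_, ∫ y in cube, p t y, ?_⟩
  · intro x
    have e1 : ∀ i, pd i (fun y => crossProduct (u t y) (vort (u t) y) i) x
        = pd i (pd i (fun z => W221.NS.nsq (u t) z / 2)) x
          - pd i (conv (fun i y => u t y i) i) x := by
      intro i
      rw [ecr i, pd_sub' (hn.pd i) (hcon i)]
    rw [Finset.sum_congr rfl fun i _ => e1 i, Finset.sum_sub_distrib]
    have e2 : lap (fun y => p t y + W221.NS.nsq (u t) y / 2) x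
        = lap (p t) x + lap (fun z => W221.NS.nsq (u t) z / 2) x := by
      have a1 : ∀ j, pd j (fun y => p t y + W221.NS.nsq (u t) y / 2)
          = fun y => pd j (p t) y + pd j (fun z => W221.NS.nsq (u t) z / 2) y := by
        intro j
        funext y
        unfold pd
        have h1 : HasFDerivAt (fun y => p t y + W221.NS.nsq (u t) y / 2) _ y :=
          ((h.sp_p hI).diff y).hasFDerivAt.add (hn.diff y).hasFDerivAt
        rw [h1.fderiv]
        rfl
      unfold lap
      rw [← Finset.sum_add_distrib]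
      refine Finset.sum_congr rfl fun j _ => ?_
      rw [a1 j]
      unfold pd
      have h1 : HasFDerivAt (fun y => pd j (p t) y + pd j (fun z => W221.NS.nsq (u t) z / 2) y)
          _ x := (((h.sp_p hI).pd j).diff x).hasFDerivAt.add ((hn.pd j).diff x).hasFDerivAt
      exact congrArg (fun L => L (Pi.single j 1)) h1.fderiv
    rw [e2, lap_press h ht]
    have e3 : lap (fun z => W221.NS.nsq (u t) z / 2) x
        = ∑ i, pd i (pd i (fun z => W221.NS.nsq (u t) z / 2)) x := rfl
    rw [e3]
    ring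
  · have := cube_finite
    have hi1 : IntegrableOn (fun y => |p t y - ∫ y in cube, p t y|) cube :=
      integrableOn_cube (sp_sub_const (h.sp_p hI) _).cont.abs
    have hi2 : IntegrableOn (fun y => W221.NS.nsq (u t) y / 2) cube := hn.int
    have h1 : ∫ y in cube, |p t y + W221.NS.nsq (u t) y / 2 - ∫ y in cube, p t y|
        ≤ ∫ y in cube, (|p t y - ∫ y in cube, p t y| + W221.NS.nsq (u t) y / 2) := by
      refine integral_mono_of_nonneg (Eventually.of_forall fun y => abs_nonneg _)
        (hi1.add hi2) (Eventually.of_forall fun y => ?_)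
      have hn0 : 0 ≤ W221.NS.nsq (u t) y / 2 := by
        unfold W221.NS.nsq
        positivity
      show |p t y + W221.NS.nsq (u t) y / 2 - ∫ y in cube, p t y| ≤ _
      calc |p t y + W221.NS.nsq (u t) y / 2 - ∫ y in cube, p t y|
          = |(p t y - ∫ y in cube, p t y) + W221.NS.nsq (u t) y / 2| := by
            congr 1; ring
        _ ≤ |p t y - ∫ y in cube, p t y| + |W221.NS.nsq (u t) y / 2| := abs_add_le _ _
        _ = _ := by rw [abs_of_nonneg hn0]
    rw [integral_add hi1 hi2] at h1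
    have h2 := int_mean_le (h.sp_p hI)
    have h3 : ∫ x in cube, |lap (p t) x| ≤ enstrophy (u t) := by
      have hi3 : IntegrableOn (fun x => ∑ i, ∑ j, pd j (fun y => u t y i) x ^ 2) cube :=
        integrableOn_cube (continuous_finsetSum _ fun i _ => continuous_finsetSum _ fun j _ =>
          ((hsp i).pd j).cont.pow 2)
      have h4 : ∫ x in cube, |lap (p t) x|
          ≤ ∫ x in cube, ∑ i, ∑ j, pd j (fun y => u t y i) x ^ 2 :=
        integral_mono_of_nonneg (Eventually.of_forall fun y => abs_nonneg _) hi3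
          (Eventually.of_forall fun y => abs_lap_press h ht y)
      refine h4.trans (le_of_eq ?_)
      unfold enstrophy
      have i1 : ∀ i ∈ (Finset.univ : Finset (Fin 3)),
          IntegrableOn (fun x => ∑ j, pd j (fun y => u t y i) x ^ 2) cube := fun i _ =>
        integrableOn_cube (continuous_finsetSum _ fun j _ => ((hsp i).pd j).cont.pow 2)
      have i2 : ∀ i, ∀ j ∈ (Finset.univ : Finset (Fin 3)),
          IntegrableOn (fun x => pd j (fun y => u t y i) x ^ 2) cube := fun i j _ =>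
        integrableOn_cube (((hsp i).pd j).cont.pow 2)
      rw [integral_finsetSum _ i1]
      exact Finset.sum_congr rfl fun i _ => integral_finsetSum _ (i2 i)
    have h5 : ∫ y in cube, W221.NS.nsq (u t) y / 2 = energy (u t) / 2 := by
      rw [integral_div]
      congr 1
      unfold W221.NS.nsq energy
      have i1 : ∀ i ∈ (Finset.univ : Finset (Fin 3)),
          IntegrableOn (fun x => u t x i ^ 2) cube := fun i _ =>
        integrableOn_cube ((hsp i).cont.pow 2)
      rw [integral_finsetSum _ i1]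
    have hE : 0 ≤ energy (u t) := Finset.sum_nonneg fun i _ => integral_nonneg fun y => sq_nonneg _
    have hS : 0 ≤ enstrophy (u t) := Finset.sum_nonneg fun i _ => Finset.sum_nonneg fun j _ =>
      integral_nonneg fun y => sq_nonneg _
    have hC : 0 ≤ √C4 := Real.sqrt_nonneg _
    have h6 : √C4 * ∫ x in cube, |lap (p t) x| ≤ √C4 * enstrophy (u t) :=
      mul_le_mul_of_nonneg_left h3 hC
    nlinarith [mul_nonneg hC hE]

end Pool.Agent.Q225.CC
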