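import Pool.Agent.Q85.CC.Defs
import Pool.Agent.Q199.VD.Flux
import Pool.Agent.Q153.VD.Pot
import Pool.Agent.Q67.VD.Basic

/-!
Project CC: pointwise bound of the velocity under the Morrey bound.
-/

set_option autoImplicit false

open MeasureTheory Set Metric Filter Topology
open scoped ContDiff
open H459R3.NS Pool.Agent.W268.NS Pool.Agent.Q67.VD Pool.Agent.Q199.VD

namespace Pool.Agent.Q225.CC

open Pool.Agent.Q85.CC

/-! ### Translations and scalings -/

theorem int_shift_ball (g : V → ℝ) (a : V) (r : ℝ) :
    ∫ z in closedBall (0 : V) r, g (a + z) = ∫ y in closedBall a r, g y := by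
  rw [← integral_indicator measurableSet_closedBall, ← integral_indicator measurableSet_closedBall,
    ← integral_add_left_eq_self ((closedBall a r).indicator g) a]
  congr 1
  funext z
  have h : z ∈ closedBall (0 : V) r ↔ a + z ∈ closedBall a r := by
    rw [mem_closedBall_zero_iff, mem_closedBall, dist_eq_norm, add_sub_cancel_left]
  by_cases hz : z ∈ closedBall (0 : V) r
  · rw [indicator_of_mem hz, indicator_of_mem (h.1 hz)]
  · rw [indicator_of_notMem hz, indicator_of_notMem fun h' => hz (h.2 h')]

theorem int_scale_ball (g : V → ℝ) (a : V) {r : ℝ} (hr : 0 < r) :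
    ∫ z in closedBall (0 : V) 1, g (a + r • z) = (r ^ 3)⁻¹ * ∫ y in closedBall a r, g y := by
  have h1 := Measure.setIntegral_comp_smul (volume : Measure V) (fun z => g (a + z)) hr.ne'
    (s := closedBall (0 : V) 1)
  have h3 : Module.finrank ℝ V = 3 := by simp
  rw [h3, Pool.Agent.Q153.VD.ball_smul hr, abs_of_nonneg (by positivity), smul_eq_mul,
    int_shift_ball g a r] at h1
  exact h1

/-! ### The annulus -/

theorem pot_step {f : V → ℝ} (hp : Per f) (hc : Continuous f) {K ρ a b : ℝ} (hM : Mor K ρ f)
    (hb : 0 < b) (hba : b ≤ a) (haρ : a ≤ ρ) (y : V) :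
    pot a f y ≤ pot b f y + K * a / b ^ 2 := by
  have ha : 0 < a := hb.trans_le hba
  have hsub : closedBall (0 : V) b ⊆ closedBall 0 a := closedBall_subset_closedBall hba
  have hi := pot_integrable hp hc a y
  have hfa : Continuous fun z : V => |f (y + z)| := (hc.comp (continuous_const.add continuous_id)).abs
  have hi2 : IntegrableOn (fun z : V => |f (y + z)|) (closedBall (0 : V) a) :=
    hfa.continuousOn.integrableOn_compact (isCompact_closedBall _ _)
  unfold pot
  have e1 : ∫ z in closedBall (0 : V) a, |f (y + z)| / ‖z‖ ^ 2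
      = (∫ z in closedBall (0 : V) b, |f (y + z)| / ‖z‖ ^ 2)
        + ∫ z in closedBall (0 : V) a \ closedBall 0 b, |f (y + z)| / ‖z‖ ^ 2 := by
    rw [← setIntegral_union disjoint_sdiff_right
      (measurableSet_closedBall.diff measurableSet_closedBall) (hi.mono_set hsub)
      (hi.mono_set sdiff_subset), union_sdiff_cancel hsub]
  rw [e1]
  have e2 : ∫ z in closedBall (0 : V) a \ closedBall 0 b, |f (y + z)| / ‖z‖ ^ 2
      ≤ ∫ z in closedBall (0 : V) a \ closedBall 0 b, |f (y + z)| / b ^ 2 := by
    have hi3 : IntegrableOn (fun z : V => |f (y + z)| / b ^ 2) (closedBall (0 : V) a) :=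
      hi2.div_const (b ^ 2)
    refine setIntegral_mono_on (hi.mono_set sdiff_subset)
      (hi3.mono_set sdiff_subset)
      (measurableSet_closedBall.diff measurableSet_closedBall) fun z hz => ?_
    have hz2 : b < ‖z‖ := by
      have := hz.2
      rw [mem_closedBall_zero_iff, not_le] at this
      exact this
    exact div_le_div_of_nonneg_left (abs_nonneg _) (by positivity)
      (pow_le_pow_left₀ hb.le hz2.le 2)
  have e3 : ∫ z in closedBall (0 : V) a \ closedBall 0 b, |f (y + z)| / b ^ 2
      ≤ ∫ z in closedBall (0 : V) a, |f (y + z)| / b ^ 2 :=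
    setIntegral_mono_set (hi2.div_const (b ^ 2))
      (Eventually.of_forall fun z => by positivity) sdiff_subset.eventuallyLE
  have e4 : ∫ z in closedBall (0 : V) a, |f (y + z)| / b ^ 2 ≤ K * a / b ^ 2 := by
    rw [integral_div, int_shift_ball (fun z => |f z|) y a]
    exact div_le_div_of_nonneg_right (hM y a ha haρ) (by positivity)
  linarith

theorem pot_ann {f : V → ℝ} (hp : Per f) (hc : Continuous f) {K ρ r : ℝ} (hM : Mor K ρ f)
    (hK : 0 ≤ K) (hr : 0 < r) (y : V) (n : ℕ) : ∀ a : ℝ, r ≤ a → a ≤ 2 ^ n * r → a ≤ ρ →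
      pot a f y ≤ pot r f y + 6 * K / r - 4 * K / a := by
  induction n with
  | zero =>
    intro a h1 h2 _
    rw [pow_zero, one_mul] at h2
    obtain rfl : a = r := le_antisymm h2 h1
    have : 0 ≤ K / a := by positivity
    have e : 6 * K / a - 4 * K / a = 2 * (K / a) := by ring
    linarith
  | succ n ih =>
    intro a h1 h2 h3
    have ha : 0 < a := hr.trans_le h1
    rcases le_or_gt r (a / 2) with h | h
    · have h4 := ih (a / 2) h (by rw [pow_succ] at h2; linarith) (by linarith)
      have h5 := pot_step hp hc hM (b := a / 2) (a := a) (by positivity) (by linarith) h3 y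
      have e1 : K * a / (a / 2) ^ 2 = 4 * K / a := by
        field_simp
        ring
      have e2 : 4 * K / (a / 2) = 8 * K / a := by
        field_simp
        ring
      have e3 : 8 * K / a = 4 * K / a + 4 * K / a := by ring
      rw [e1] at h5
      rw [e2, e3] at h4
      linarith
    · have h5 := pot_step hp hc hM (b := r) (a := a) hr h1 h3 y
      have e1 : K * a / r ^ 2 ≤ 2 * K / r := by
        rw [div_le_div_iff₀ (by positivity) hr]
        have : 0 ≤ K * r := by positivity
        nlinarith [mul_nonneg hK hr.le]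
      have e2 : 4 * K / a ≤ 4 * K / r := div_le_div_of_nonneg_left (by positivity) hr h1
      have e3 : 6 * K / r = 2 * K / r + 4 * K / r := by ring
      linarith

theorem pot_le_pot {f : V → ℝ} (hp : Per f) (hc : Continuous f) {K ρ r a : ℝ} (hM : Mor K ρ f)
    (hK : 0 ≤ K) (hr : 0 < r) (ha : 0 < a) (haρ : a ≤ ρ) (y : V) :
    pot a f y ≤ pot r f y + 6 * K / r := by
  rcases le_total a r with h | h
  · have h1 : pot a f y ≤ pot r f y :=
      setIntegral_mono_set (pot_integrable hp hc r y)
        (Eventually.of_forall fun z => by positivity)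
        (closedBall_subset_closedBall h).eventuallyLE
    have h2 : 0 ≤ 6 * K / r := by positivity
    linarith
  · obtain ⟨n, hn⟩ := pow_unbounded_of_one_lt (a / r) (by norm_num : (1 : ℝ) < 2)
    rw [div_lt_iff₀ hr] at hn
    have h1 := pot_ann hp hc hM hK hr y n a h hn.le haρ
    have h2 : 0 ≤ 4 * K / a := by positivity
    linarith

/-! ### The vorticity matrix -/

theorem cur_le {v : V → V} (i j : Fin 3) (x : V) : |cur i j v x| ≤ om v x := by
  have h0 := abs_le_len (vort v x) 0
  have h1 := abs_le_len (vort v x) 1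
  have h2 := abs_le_len (vort v x) 2
  have e0 : vort v x 0 = pd 1 (fun y => v y 2) x - pd 2 (fun y => v y 1) x := rfl
  have e1 : vort v x 1 = pd 2 (fun y => v y 0) x - pd 0 (fun y => v y 2) x := rfl
  have e2 : vort v x 2 = pd 0 (fun y => v y 1) x - pd 1 (fun y => v y 0) x := rfl
  have hn := om_nonneg v x
  rw [e0] at h0
  rw [e1] at h1
  rw [e2] at h2
  unfold cur om at *
  fin_cases i <;> fin_cases j <;>
    simp only [Fin.zero_eta, Fin.mk_one, Fin.reduceFinMk, sub_self, abs_zero] <;>
    first
      | exact hn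
      | exact h0
      | exact h1
      | exact h2
      | (rw [abs_sub_comm]; exact h0)
      | (rw [abs_sub_comm]; exact h1)
      | (rw [abs_sub_comm]; exact h2)

theorem sp_cur {v : V → V} (hv : ∀ i, SP (fun y => v y i)) (i j : Fin 3) : SP (cur i j v) :=
  ⟨((hv j).pd i).smooth.sub ((hv i).pd j).smooth, fun k x => by
    have h1 := ((hv j).pd i).per k x
    have h2 := ((hv i).pd j).per k x
    unfold cur
    rw [h1, h2]⟩

theorem lap_cur {v : V → V} (hv : ∀ i, SP (fun y => v y i))
    (hdiv : ∀ x, ∑ i, pd i (fun y => v y i) x = 0) (i : Fin 3) (x : V) :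
    lap (fun y => v y i) x = ∑ m, pd m (cur m i v) x := by
  have h1 : ∀ m, pd m (cur m i v) x
      = pd m (pd m (fun y => v y i)) x - pd i (pd m (fun y => v y m)) x := by
    intro m
    have h2 := pd_sub' ((hv i).pd m) ((hv m).pd i) m x
    rw [pd_comm (hv m) m i] at h2
    exact h2
  simp_rw [h1]
  rw [Finset.sum_sub_distrib]
  have h3 : ∑ m, pd i (pd m (fun y => v y m)) x = 0 := by
    have h4 : pd i (fun y => ∑ m, pd m (fun y => v y m) y) x
        = ∑ m, pd i (pd m (fun y => v y m)) x := pd_sum (fun m _ => (hv m).pd m) i x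
    have h5 : (fun y => ∑ m, pd m (fun y => v y m) y) = fun _ => (0 : ℝ) := funext hdiv
    rw [← h4, h5]
    unfold pd
    simp
  rw [h3, sub_zero]
  rfl

theorem om_per {v : V → V} (hv : ∀ i, SP (fun y => v y i)) : Per (om v) := by
  intro k x
  have h : vort v (x + Pi.single k 1) = vort v x := by
    funext i
    exact (Pool.Agent.Q199.VD.sp_vort hv i).per k x
  unfold om
  rw [h]

/-! ### The pointwise bound -/

theorem vel_pt : ∃ C : ℝ, 0 < C ∧ ∀ (v : V → V) (K ρ r : ℝ), SDF v → 0 ≤ K → 0 < r → r ≤ ρ →
    ρ ≤ 1 → Mor K ρ (om v) → ∀ y i,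
      |v y i| ≤ C * (pot r (om v) y + K / r + √(energy v / ρ ^ 3)) := by
  obtain ⟨C, hC, hP⟩ := Pool.Agent.Q153.VD.stmPot
  refine ⟨18 * C, by positivity, ?_⟩
  intro v K ρ r hv hK hr hrρ hρ1 hM y i
  have hρ : 0 < ρ := hr.trans_le hrρ
  have hsp := hv.1
  have h1 := hP (ρ / 2) (fun y => v y i) (fun m => cur m i v) (by positivity) (by linarith)
    (hsp i) (fun m => sp_cur hsp m i) (lap_cur hsp hv.2 i) y
  have h2 : ∀ m, pot (ρ / 2) (cur m i v) y ≤ pot r (om v) y + 6 * K / r := by
    intro m
    have h3 := pot_le (δ := 1) (M := 0) (ρ := ρ / 2) (x := y) (sp_cur hsp m i).per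
      (sp_cur hsp m i).cont (om_per hsp) (om_cont hsp) (by positivity) (fun z _ => by
        rw [one_mul, add_zero, abs_of_nonneg (om_nonneg v _)]
        exact cur_le m i _)
    rw [one_mul, mul_zero, zero_mul, add_zero] at h3
    exact h3.trans (pot_le_pot (om_per hsp) (om_cont hsp) hM hK hr (by positivity)
      (by linarith) y)
  have h3 : ∑ m, pot (ρ / 2) (cur m i v) y ≤ 3 * (pot r (om v) y + 6 * K / r) := by
    rw [Fin.sum_univ_three]
    linarith [h2 0, h2 1, h2 2]
  have h4 : (∫ z in closedBall (0 : V) (ρ / 2), |v (y + z) i|) / (ρ / 2) ^ 3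
      ≤ 8 * √(energy v / ρ ^ 3) := by
    rw [int_shift_ball (fun z => |v z i|) y (ρ / 2)]
    have h5 := ball_cs (hsp i) y hρ hρ1 (energy_comp v i)
    have hE := Pool.Agent.Q199.VD.energy_nonneg v
    have e1 : √(ρ ^ 3 * energy v) = ρ ^ 3 * √(energy v / ρ ^ 3) := by
      have e2 : ρ ^ 3 * energy v = (ρ ^ 3) ^ 2 * (energy v / ρ ^ 3) := by
        field_simp
      rw [e2, Real.sqrt_mul (by positivity), Real.sqrt_sq (by positivity)]
    rw [e1] at h5
    rw [div_le_iff₀ (by positivity)]
    calc ∫ y in closedBall y (ρ / 2), |v y i| ≤ ρ ^ 3 * √(energy v / ρ ^ 3) := h5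
      _ = 8 * √(energy v / ρ ^ 3) * (ρ / 2) ^ 3 := by ring
  have hp0 := pot_nonneg (om v) r y
  have hE0 : 0 ≤ √(energy v / ρ ^ 3) := Real.sqrt_nonneg _
  have hK0 : 0 ≤ K / r := by positivity
  calc |v y i| ≤ C * ((∑ m, pot (ρ / 2) (cur m i v) y) +
        (∫ z in closedBall (0 : V) (ρ / 2), |v (y + z) i|) / (ρ / 2) ^ 3) := h1
    _ ≤ C * (3 * (pot r (om v) y + 6 * K / r) + 8 * √(energy v / ρ ^ 3)) := by gcongr
    _ ≤ C * (18 * (pot r (om v) y + K / r + √(energy v / ρ ^ 3))) := by
        refine mul_le_mul_of_nonneg_left ?_ hC.le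
        have e : 6 * K / r = 6 * (K / r) := by ring
        rw [e]
        linarith
    _ = _ := by ring

/-! ### The mollified velocity -/

theorem th_bdd : ∃ B : ℝ, 0 < B ∧ (∀ z, W221.NS.th z ≤ B) ∧ (∀ z, 0 ≤ W221.NS.th z) ∧
    (∀ z, z ∉ closedBall (0 : V) 1 → W221.NS.th z = 0) ∧ Continuous W221.NS.th ∧
    ∫ z, W221.NS.th z = 1 := by
  have hc : Continuous W221.NS.th := W221.NS.bmp.continuous_normed
  have hs : HasCompactSupport W221.NS.th := W221.NS.bmp.hasCompactSupport_normed
  obtain ⟨B, hB⟩ := hs.exists_bound_of_continuous hc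
  refine ⟨B + 1, ?_, fun z => ?_, fun z => W221.NS.bmp.nonneg_normed z, fun z hz => ?_, hc,
    W221.NS.bmp.integral_normed⟩
  · have := (norm_nonneg _).trans (hB 0)
    linarith
  · have := (le_abs_self _).trans (hB z)
    linarith
  · have h1 : Function.support W221.NS.th = ball (0 : V) 1 := W221.NS.bmp.support_normed_eq
    by_contra h
    have h2 : z ∈ Function.support W221.NS.th := h
    rw [h1] at h2
    exact hz (ball_subset_closedBall h2)

/-- The average of the potential. -/
theorem avg_pot {f : V → ℝ} (hp : Per f) (hc : Continuous f) {K ρ r : ℝ} (hM : Mor K ρ f)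
    (hr : 0 < r) (hrρ : r ≤ ρ) (y : V) :
    ∫ z in closedBall (0 : V) 1, pot r f (y + r • z) ≤ 24 * K / r := by
  obtain ⟨B, hB, hf⟩ := per_bdd hp hc
  unfold pot
  have hswap := integral_integral_swap (μ := volume.restrict (closedBall (0 : V) 1))
    (ν := volume.restrict (closedBall (0 : V) r))
    (f := fun z w => |f (y + r • z + w)| / ‖w‖ ^ 2) ?_
  · rw [hswap]
    have h1 : ∀ w, ∫ z in closedBall (0 : V) 1, |f (y + r • z + w)| / ‖w‖ ^ 2
        ≤ K / r ^ 2 * (‖w‖ ^ 2)⁻¹ := by
      intro w
      rw [integral_div, div_eq_mul_inv]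
      refine mul_le_mul_of_nonneg_right ?_ (by positivity)
      have e : ∀ z, |f (y + r • z + w)| = (fun x => |f x|) ((y + w) + r • z) := fun z => by
        simp only
        congr 2
        abel
      simp_rw [e]
      rw [int_scale_ball (fun x => |f x|) (y + w) hr]
      have h2 := hM (y + w) r hr hrρ
      calc (r ^ 3)⁻¹ * ∫ y in closedBall (y + w) r, |f y| ≤ (r ^ 3)⁻¹ * (K * r) := by gcongr
        _ = K / r ^ 2 := by field_simp
    have h3 : ∫ w in closedBall (0 : V) r, ∫ z in closedBall (0 : V) 1,
        |f (y + r • z + w)| / ‖w‖ ^ 2 ≤ ∫ w in closedBall (0 : V) r, K / r ^ 2 * (‖w‖ ^ 2)⁻¹ :=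
      integral_mono_of_nonneg (Eventually.of_forall fun w => integral_nonneg fun z => by
        positivity) ((ker_int r).const_mul _) (Eventually.of_forall h1)
    refine h3.trans (le_of_eq ?_)
    rw [integral_const_mul, ker_val hr.le]
    field_simp
  · have h1 : Integrable (fun q : V × V => B * (‖q.2‖ ^ 2)⁻¹)
        ((volume.restrict (closedBall (0 : V) 1)).prod (volume.restrict (closedBall (0 : V) r))) := by
      have h2 : Integrable (fun _ : V => B) (volume.restrict (closedBall (0 : V) 1)) :=
        (continuous_const.continuousOn.integrableOn_compact (isCompact_closedBall (0 : V) 1))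
      exact h2.mul_prod (ker_int r)
    refine h1.mono' ?_ ?_
    · refine Measurable.aestronglyMeasurable ?_
      have h1 : Measurable f := hc.measurable
      unfold Function.uncurry
      fun_prop
    · refine Eventually.of_forall fun q => ?_
      rw [Function.uncurry, Real.norm_eq_abs, abs_div, abs_abs, abs_of_nonneg (sq_nonneg ‖q.2‖),
        div_eq_mul_inv]
      exact mul_le_mul_of_nonneg_right (hf _) (by positivity)

/-- Pointwise bound of the velocity under the Morrey bound. -/
theorem stmVel : StmVel := by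
  obtain ⟨C, hC, hP⟩ := vel_pt
  obtain ⟨B, hB, hthB, hth0, hths, hthc, hthi⟩ := th_bdd
  refine ⟨C * (1 + 24 * B), by positivity, ?_⟩
  intro v K ρ r hv hK hr hrρ hρ1 hM y i
  have hρ : 0 < ρ := hr.trans_le hrρ
  have hsp := hv.1
  have hE0 : 0 ≤ √(energy v / ρ ^ 3) := Real.sqrt_nonneg _
  have hK0 : 0 ≤ K / r := by positivity
  have hB24 : (1 : ℝ) ≤ 1 + 24 * B := by linarith
  constructor
  · have h1 := hP v K ρ r hv hK hr hrρ hρ1 hM y i
    have hp0 := pot_nonneg (om v) r y
    refine h1.trans ?_
    rw [mul_assoc]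
    refine mul_le_mul_of_nonneg_left ?_ hC.le
    exact le_mul_of_one_le_left (by positivity) hB24
  · have hcp : Continuous fun z : V => pot r (om v) (y + r • z) :=
      (pot_cont (om_per hsp) (om_cont hsp) r).comp (by fun_prop)
    have hcs : ∀ g : V → ℝ, Continuous g → Integrable fun z => W221.NS.th z * g z := by
      intro g hg
      refine (hthc.mul hg).integrable_of_hasCompactSupport ?_
      exact (W221.NS.bmp.hasCompactSupport_normed (μ := volume)).mul_right
    have h1 : |∫ z, W221.NS.th z * v (y + r • z) i|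
        ≤ ∫ z, W221.NS.th z * (C * (pot r (om v) (y + r • z) + K / r + √(energy v / ρ ^ 3))) := by
      refine abs_integral_le_integral_abs.trans ?_
      refine integral_mono_of_nonneg (Eventually.of_forall fun z => abs_nonneg _)
        (hcs _ (continuous_const.mul ((hcp.add continuous_const).add continuous_const)))
        (Eventually.of_forall fun z => ?_)
      show |W221.NS.th z * v (y + r • z) i| ≤ _
      rw [abs_mul, abs_of_nonneg (hth0 z)]
      exact mul_le_mul_of_nonneg_left (hP v K ρ r hv hK hr hrρ hρ1 hM (y + r • z) i) (hth0 z)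
    have h2 : ∫ z, W221.NS.th z * (C * (pot r (om v) (y + r • z) + K / r + √(energy v / ρ ^ 3)))
        = C * (∫ z, W221.NS.th z * pot r (om v) (y + r • z))
          + C * (K / r + √(energy v / ρ ^ 3)) := by
      have e1 : ∀ z, W221.NS.th z * (C * (pot r (om v) (y + r • z) + K / r
          + √(energy v / ρ ^ 3))) = C * (W221.NS.th z * pot r (om v) (y + r • z))
            + C * (K / r + √(energy v / ρ ^ 3)) * W221.NS.th z := fun z => by ring
      simp_rw [e1]
      have i1 : Integrable fun z => C * (W221.NS.th z * pot r (om v) (y + r • z)) :=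
        (hcs _ hcp).const_mul C
      have i2 : Integrable fun z => C * (K / r + √(energy v / ρ ^ 3)) * W221.NS.th z := by
        have := (hcs (fun _ => 1) continuous_const).const_mul (C * (K / r + √(energy v / ρ ^ 3)))
        simpa only [mul_one] using this
      rw [integral_add i1 i2, integral_const_mul, integral_const_mul, hthi, mul_one]
    have h3 : ∫ z, W221.NS.th z * pot r (om v) (y + r • z) ≤ B * (24 * K / r) := by
      rw [← setIntegral_eq_integral_of_forall_compl_eq_zero (s := closedBall (0 : V) 1)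
        (f := fun z => W221.NS.th z * pot r (om v) (y + r • z))
        (fun z hz => by rw [hths z hz, zero_mul])]
      have h4 : ∫ z in closedBall (0 : V) 1, W221.NS.th z * pot r (om v) (y + r • z)
          ≤ ∫ z in closedBall (0 : V) 1, B * pot r (om v) (y + r • z) := by
        refine integral_mono_of_nonneg (Eventually.of_forall fun z =>
          mul_nonneg (hth0 z) (pot_nonneg _ _ _))
          ((continuous_const.mul hcp).continuousOn.integrableOn_compact (isCompact_closedBall _ _))
          (Eventually.of_forall fun z => ?_)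
        exact mul_le_mul_of_nonneg_right (hthB z) (pot_nonneg _ _ _)
      refine h4.trans ?_
      rw [integral_const_mul]
      exact mul_le_mul_of_nonneg_left
        (avg_pot (om_per hsp) (om_cont hsp) hM hr hrρ y) hB.le
    rw [h2] at h1
    refine h1.trans ?_
    have h5 : C * (∫ z, W221.NS.th z * pot r (om v) (y + r • z)) ≤ C * (B * (24 * K / r)) :=
      mul_le_mul_of_nonneg_left h3 hC.le
    have e : 24 * K / r = 24 * (K / r) := by ring
    rw [e] at h5
    have h6 : 0 ≤ C * (24 * B * √(energy v / ρ ^ 3)) := by positivity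
    nlinarith

end Pool.Agent.Q225.CC
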